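import Mathlib

/-!
Convexity lemmas used for the composition theorem for proximally irreducible extensions:
compactness of convex hulls of finite unions of compact convex sets, the converse of
Milman to the Krein-Milman theorem, and a finite version of the extreme point property.
-/

set_option autoImplicit false

open Set

namespace Pool.Agent.Lib.MP_d4114f_an

section Compact

variable {E : Type*} [AddCommGroup E] [Module ℝ E] [TopologicalSpace E]
  [IsTopologicalAddGroup E] [ContinuousSMul ℝ E]

lemma isCompact_convexJoin {A B : Set E} (hA : IsCompact A) (hB : IsCompact B) :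
    IsCompact (convexJoin ℝ A B) := by
  have h : convexJoin ℝ A B =
      (fun q : E × E × ℝ => (1 - q.2.2) • q.1 + q.2.2 • q.2.1) '' (A ×ˢ B ×ˢ Icc (0 : ℝ) 1) := by
    ext z
    rw [mem_convexJoin]
    constructor
    · rintro ⟨a, ha, b, hb, hz⟩
      rw [segment_eq_image] at hz
      obtain ⟨t, ht, rfl⟩ := hz
      exact ⟨(a, b, t), ⟨ha, hb, ht⟩, rfl⟩
    · rintro ⟨⟨a, b, t⟩, ⟨ha, hb, ht⟩, rfl⟩
      refine ⟨a, ha, b, hb, ?_⟩
      rw [segment_eq_image]
      exact ⟨t, ht, rfl⟩
  rw [h]
  refine (hA.prod (hB.prod isCompact_Icc)).image ?_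
  fun_prop

lemma isCompact_convexHull_union {A B : Set E} (hA : IsCompact A) (hB : IsCompact B)
    (cA : Convex ℝ A) (cB : Convex ℝ B) : IsCompact (convexHull ℝ (A ∪ B)) := by
  rcases A.eq_empty_or_nonempty with rfl | hAn
  · simpa [cB.convexHull_eq] using hB
  rcases B.eq_empty_or_nonempty with rfl | hBn
  · simpa [cA.convexHull_eq] using hA
  rw [cA.convexHull_union cB hAn hBn]
  exact isCompact_convexJoin hA hB

lemma isCompact_convexHull_biUnion {ι : Type*} (s : Finset ι) (T : ι → Set E)
    (hT : ∀ i ∈ s, IsCompact (T i)) (cT : ∀ i ∈ s, Convex ℝ (T i)) :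
    IsCompact (convexHull ℝ (⋃ i ∈ s, T i)) := by
  classical
  induction s using Finset.induction_on with
  | empty => simp
  | insert a s ha ih =>
    have h1 : IsCompact (convexHull ℝ (⋃ i ∈ s, T i)) :=
      ih (fun i hi => hT i (Finset.mem_insert_of_mem hi))
        (fun i hi => cT i (Finset.mem_insert_of_mem hi))
    have h2 := isCompact_convexHull_union (hT a (Finset.mem_insert_self a s)) h1
      (cT a (Finset.mem_insert_self a s)) (convex_convexHull ℝ _)
    have h3 : convexHull ℝ (⋃ i ∈ insert a s, T i) =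
        convexHull ℝ (T a ∪ convexHull ℝ (⋃ i ∈ s, T i)) := by
      rw [Finset.set_biUnion_insert]
      apply Subset.antisymm
      · apply convexHull_mono
        exact union_subset_union_right _ (subset_convexHull ℝ _)
      · apply convexHull_min _ (convex_convexHull ℝ _)
        apply union_subset
        · exact subset_union_left.trans (subset_convexHull ℝ _)
        · exact convexHull_mono subset_union_right
    rw [h3]
    exact h2

end Compact

section Milman

variable {E : Type*} [AddCommGroup E] [Module ℝ E] [TopologicalSpace E] [T2Space E]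
  [IsTopologicalAddGroup E] [ContinuousSMul ℝ E] [LocallyConvexSpace ℝ E]

/-- Milman's converse of the Krein-Milman theorem. -/
theorem milman {T Z : Set E} (hT : IsCompact T) (cT : Convex ℝ T) (hZ : IsCompact Z)
    (hZT : closure (convexHull ℝ Z) = T) : T.extremePoints ℝ ⊆ Z := by
  intro x hx
  by_contra hxZ
  have hsub : Z ⊆ T := by
    rw [← hZT]
    exact (subset_convexHull ℝ Z).trans subset_closure
  -- separate each point of `Z` from `x`
  have hsep : ∀ z ∈ Z, ∃ l : StrongDual ℝ E, l x < l z := by
    intro z hz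
    have hne : x ≠ z := fun h => hxZ (h ▸ hz)
    exact geometric_hahn_banach_point_point hne
  choose! l hl using hsep
  obtain ⟨s, hsZ, hs⟩ := hZ.elim_nhds_subcover
    (fun z => {w | (l z x + l z z) / 2 < l z w}) (by
      intro z hz
      have hopen : IsOpen {w | (l z x + l z z) / 2 < l z w} :=
        isOpen_lt continuous_const (l z).continuous
      apply hopen.mem_nhds
      have := hl z hz
      show (l z x + l z z) / 2 < l z z
      linarith)
  let S : E → Set E := fun z => T ∩ {w | (l z x + l z z) / 2 ≤ l z w}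
  have hScomp : ∀ z ∈ s, IsCompact (S z) := fun z _ =>
    hT.inter_right (isClosed_le continuous_const (l z).continuous)
  have hSconv : ∀ z ∈ s, Convex ℝ (S z) := fun z _ =>
    cT.inter (convex_halfSpace_ge (l z).toLinearMap.isLinear _)
  have hD := isCompact_convexHull_biUnion s S hScomp hSconv
  have hDT : T ⊆ convexHull ℝ (⋃ z ∈ s, S z) := by
    rw [← hZT]
    apply closure_minimal _ hD.isClosed
    apply convexHull_mono
    intro w hw
    obtain ⟨z, hz, hwz⟩ := mem_iUnion₂.1 (hs hw)
    have hwz' : (l z x + l z z) / 2 < l z w := hwz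
    exact mem_iUnion₂.2 ⟨z, hz, hsub hw, hwz'.le⟩
  have hTD : convexHull ℝ (⋃ z ∈ s, S z) ⊆ T :=
    convexHull_min (iUnion₂_subset fun z _ => inter_subset_left) cT
  have hEq : convexHull ℝ (⋃ z ∈ s, S z) = T := Subset.antisymm hTD hDT
  have hx2 : x ∈ ⋃ z ∈ s, S z := by
    have : x ∈ (convexHull ℝ (⋃ z ∈ s, S z)).extremePoints ℝ := by rw [hEq]; exact hx
    exact extremePoints_convexHull_subset this
  obtain ⟨z, hz, hxz⟩ := mem_iUnion₂.1 hx2
  have h1 : (l z x + l z z) / 2 ≤ l z x := hxz.2
  have h2 := hl z (hsZ z hz)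
  linarith

end Milman

section Extreme

variable {E : Type*} [AddCommGroup E] [Module ℝ E]

lemma eq_of_sum_eq_extreme {L : Set E} (hL : Convex ℝ L) {x : E}
    (hx : x ∈ L.extremePoints ℝ) {ι : Type*} [Fintype ι] (w : ι → ℝ) (q : ι → E)
    (hw : ∀ i, 0 ≤ w i) (hs : ∑ i, w i = 1) (hq : ∀ i, q i ∈ L)
    (hsum : ∑ i, w i • q i = x) (i : ι) (hi : 0 < w i) : q i = x := by
  classical
  have hsplit : w i + ∑ j ∈ Finset.univ.erase i, w j = 1 := by
    rw [Finset.add_sum_erase _ _ (Finset.mem_univ i)]; exact hs
  have hsplit2 : w i • q i + ∑ j ∈ Finset.univ.erase i, w j • q j = x := by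
    rw [Finset.add_sum_erase _ (fun j => w j • q j) (Finset.mem_univ i)]; exact hsum
  have hnn : 0 ≤ ∑ j ∈ Finset.univ.erase i, w j := Finset.sum_nonneg fun j _ => hw j
  rcases eq_or_lt_of_le hnn with h0 | h0
  · have hz : ∀ j ∈ Finset.univ.erase i, w j = 0 :=
      (Finset.sum_eq_zero_iff_of_nonneg fun j _ => hw j).1 h0.symm
    have hwi : w i = 1 := by linarith
    have : ∑ j ∈ Finset.univ.erase i, w j • q j = 0 :=
      Finset.sum_eq_zero fun j hj => by rw [hz j hj, zero_smul]
    rw [this, hwi, one_smul, add_zero] at hsplit2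
    exact hsplit2
  · set c := ∑ j ∈ Finset.univ.erase i, w j with hc
    have hr : (∑ j ∈ Finset.univ.erase i, (c⁻¹ * w j) • q j) ∈ L := by
      apply hL.sum_mem
      · intro j _
        exact mul_nonneg (inv_nonneg.2 h0.le) (hw j)
      · rw [← Finset.mul_sum, ← hc]
        exact inv_mul_cancel₀ h0.ne'
      · intro j _
        exact hq j
    apply hx.2 (hq i) hr
    refine ⟨w i, c, hi, h0, hsplit, ?_⟩
    rw [Finset.smul_sum]
    rw [← hsplit2]
    congr 1
    apply Finset.sum_congr rfl
    intro j _
    rw [smul_smul, ← mul_assoc, mul_inv_cancel₀ h0.ne', one_mul]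

end Extreme

end Pool.Agent.Lib.MP_d4114f_an
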