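import Mathlib

/-!
Definitions for the composition problem for proximally irreducible extensions of affine flows.
-/

set_option autoImplicit false

open Set

namespace Pool.Agent.Lib.MP_d4114f_an

/-- An affine `G`-flow in the topological vector space `E`: a compact convex set `carrier`
together with a jointly continuous action of `G` on `carrier` by affine maps (which are then
affine homeomorphisms of `carrier`). The function `act g` is defined on all of `E`, but only its
restriction to `carrier` carries information. -/
structure AffineFlow (G : Type*) [Group G] [TopologicalSpace G] (E : Type*) [AddCommGroup E]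
    [Module ℝ E] [TopologicalSpace E] where
  /-- the underlying compact convex set -/
  carrier : Set E
  isCompact_carrier : IsCompact carrier
  convex_carrier : Convex ℝ carrier
  /-- the action -/
  act : G → E → E
  act_mem : ∀ g : G, ∀ x ∈ carrier, act g x ∈ carrier
  act_one : ∀ x ∈ carrier, act 1 x = x
  act_mul : ∀ g h : G, ∀ x ∈ carrier, act (g * h) x = act g (act h x)
  continuousOn_act : ContinuousOn (fun q : G × E => act q.1 q.2) (univ ×ˢ carrier)
  act_affine : ∀ g : G, ∀ x ∈ carrier, ∀ y ∈ carrier, ∀ a b : ℝ, 0 ≤ a → 0 ≤ b → a + b = 1 →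
    act g (a • x + b • y) = a • act g x + b • act g y

/-- An affine subflow of `K`: a compact convex `G`-invariant subset. -/
def AffineFlow.IsSubflow {G : Type*} [Group G] [TopologicalSpace G] {E : Type*} [AddCommGroup E]
    [Module ℝ E] [TopologicalSpace E] (K : AffineFlow G E) (C : Set E) : Prop :=
  C ⊆ K.carrier ∧ IsCompact C ∧ Convex ℝ C ∧ ∀ g : G, ∀ x ∈ C, K.act g x ∈ C

/-- The closure of the set of extreme points of an affine flow. -/
def AffineFlow.clExt {G : Type*} [Group G] [TopologicalSpace G] {E : Type*} [AddCommGroup E]
    [Module ℝ E] [TopologicalSpace E] (K : AffineFlow G E) : Set E :=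
  closure (K.carrier.extremePoints ℝ)

/-- `φ` restricts to an affine extension `L → K`: continuous, affine, `G`-equivariant and
surjective. -/
structure IsAffineExtension {G : Type*} [Group G] [TopologicalSpace G]
    {E : Type*} [AddCommGroup E] [Module ℝ E] [TopologicalSpace E]
    {F : Type*} [AddCommGroup F] [Module ℝ F] [TopologicalSpace F]
    (L : AffineFlow G F) (K : AffineFlow G E) (φ : F → E) : Prop where
  continuousOn : ContinuousOn φ L.carrier
  affine : ∀ x ∈ L.carrier, ∀ y ∈ L.carrier, ∀ a b : ℝ, 0 ≤ a → 0 ≤ b → a + b = 1 →
    φ (a • x + b • y) = a • φ x + b • φ y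
  equivariant : ∀ g : G, ∀ x ∈ L.carrier, φ (L.act g x) = K.act g (φ x)
  image_eq : φ '' L.carrier = K.carrier

/-- The extension `φ : L → K` is proximally irreducible: every affine subflow `C` of `L` which
meets the (algebraic) convex hull of `closure (ext L) ∩ φ⁻¹{y}` for every `y ∈ closure (ext K)`
is equal to `L`. -/
def IsProximallyIrreducible {G : Type*} [Group G] [TopologicalSpace G]
    {E : Type*} [AddCommGroup E] [Module ℝ E] [TopologicalSpace E]
    {F : Type*} [AddCommGroup F] [Module ℝ F] [TopologicalSpace F]
    (L : AffineFlow G F) (K : AffineFlow G E) (φ : F → E) : Prop :=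
  ∀ C : Set F, L.IsSubflow C →
    (∀ y ∈ K.clExt, (C ∩ convexHull ℝ (L.clExt ∩ φ ⁻¹' {y})).Nonempty) → C = L.carrier

end Pool.Agent.Lib.MP_d4114f_an
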