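import Pool.Agent.Lib.MP_d4114f_an.Tools

/-!
Sanity checks for the definitions: the identity extension is proximally irreducible, and a
collapse of a segment to a point (with trivial action) is not.
-/

set_option autoImplicit false
set_option linter.unusedSectionVars false

open Set

namespace Pool.Agent.Lib.MP_d4114f_an

variable {G : Type*} [Group G] [TopologicalSpace G]
variable {E : Type*} [AddCommGroup E] [Module ℝ E] [TopologicalSpace E] [T2Space E]
  [IsTopologicalAddGroup E] [ContinuousSMul ℝ E] [LocallyConvexSpace ℝ E]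

lemma isProximallyIrreducible_id (K : AffineFlow G E) :
    IsAffineExtension K K id ∧ IsProximallyIrreducible K K id := by
  refine ⟨⟨continuousOn_id, fun _ _ _ _ _ _ _ _ _ => rfl, fun _ _ _ => rfl, by simp⟩, ?_⟩
  intro C hC h
  apply Subset.antisymm hC.1
  have h1 : K.clExt ⊆ C := by
    intro y hy
    obtain ⟨c, hc, hc2⟩ := h y hy
    have : convexHull ℝ (K.clExt ∩ id ⁻¹' {y}) ⊆ {y} :=
      convexHull_min (fun z hz => hz.2) (convex_singleton y)
    have hcy : c = y := this hc2
    exact hcy ▸ hc
  rw [← closure_convexHull_extremePoints K.isCompact_carrier K.convex_carrier]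
  exact closure_minimal (convexHull_min (subset_closure.trans h1) hC.2.2.1) hC.2.1.isClosed

/-- The unit interval with the trivial action. -/
def unitFlow : AffineFlow G ℝ where
  carrier := Icc 0 1
  isCompact_carrier := isCompact_Icc
  convex_carrier := convex_Icc 0 1
  act := fun _ x => x
  act_mem := fun _ _ hx => hx
  act_one := fun _ _ => rfl
  act_mul := fun _ _ _ _ => rfl
  continuousOn_act := by fun_prop
  act_affine := fun _ _ _ _ _ _ _ _ _ _ => rfl

/-- The one-point flow. -/
def pointFlow : AffineFlow G ℝ where
  carrier := {0}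
  isCompact_carrier := isCompact_singleton
  convex_carrier := convex_singleton 0
  act := fun _ x => x
  act_mem := fun _ _ hx => hx
  act_one := fun _ _ => rfl
  act_mul := fun _ _ _ _ => rfl
  continuousOn_act := by fun_prop
  act_affine := fun _ _ _ _ _ _ _ _ _ _ => rfl

lemma not_isProximallyIrreducible_collapse :
    IsAffineExtension (unitFlow (G := G)) pointFlow (fun _ => 0) ∧
      ¬ IsProximallyIrreducible (unitFlow (G := G)) pointFlow (fun _ => 0) := by
  constructor
  · refine ⟨continuousOn_const, ?_, fun _ _ _ => rfl, ?_⟩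
    · intro x _ y _ a b _ _ _
      simp
    · show (fun _ : ℝ => (0 : ℝ)) '' Icc 0 1 = {0}
      exact (nonempty_Icc.2 zero_le_one).image_const 0
  · intro h
    have h0 : (0 : ℝ) ∈ (Icc (0 : ℝ) 1).extremePoints ℝ := by
      refine ⟨⟨le_refl _, zero_le_one⟩, ?_⟩
      intro a ha b hb hab
      obtain ⟨s, t, hs, ht, hst, hz⟩ := hab
      simp only [smul_eq_mul] at hz
      have h1 : 0 ≤ s * a := mul_nonneg hs.le ha.1
      have h2 : 0 ≤ t * b := mul_nonneg ht.le hb.1
      have h3 : s * a = 0 := by linarith
      rcases mul_eq_zero.1 h3 with h4 | h4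
      · exact absurd h4 hs.ne'
      · exact h4
    have hsub : (unitFlow (G := G)).IsSubflow {(0 : ℝ)} :=
      ⟨singleton_subset_iff.2 ⟨le_refl _, zero_le_one⟩, isCompact_singleton,
        convex_singleton 0, fun _ _ hx => hx⟩
    have heq := h {0} hsub (by
      intro y hy
      have hy0 : y = 0 := by
        have := (pointFlow (G := G)).clExt_subset hy
        exact this
      refine ⟨0, rfl, subset_convexHull ℝ _ ⟨subset_closure h0, ?_⟩⟩
      show (0 : ℝ) = y
      exact hy0.symm)
    have h1 : (1 : ℝ) ∈ ({0} : Set ℝ) := by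
      rw [heq]
      exact ⟨zero_le_one, le_refl _⟩
    exact one_ne_zero h1

end Pool.Agent.Lib.MP_d4114f_an
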