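import Pool.Agent.Lib.MP_d4114f_an.Convexity
import Pool.Agent.Lib.MP_d4114f_an.Flows

set_option autoImplicit false
set_option linter.unusedSectionVars false

open Set Filter Topology

namespace Pool.Agent.Lib.MP_d4114f_an

section FlowLemmas

variable {G : Type*} [Group G] [TopologicalSpace G]
variable {E : Type*} [AddCommGroup E] [Module ℝ E] [TopologicalSpace E] [T2Space E]
  [IsTopologicalAddGroup E] [ContinuousSMul ℝ E]

lemma AffineFlow.clExt_subset (K : AffineFlow G E) : K.clExt ⊆ K.carrier :=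
  closure_minimal extremePoints_subset K.isCompact_carrier.isClosed

lemma AffineFlow.isClosed_clExt (K : AffineFlow G E) : IsClosed K.clExt := isClosed_closure

lemma AffineFlow.isCompact_clExt (K : AffineFlow G E) : IsCompact K.clExt :=
  K.isCompact_carrier.of_isClosed_subset K.isClosed_clExt K.clExt_subset

lemma AffineFlow.continuousOn_act_right (K : AffineFlow G E) (g : G) :
    ContinuousOn (K.act g) K.carrier := by
  have h : ContinuousOn (fun x : E => ((g, x) : G × E)) K.carrier := by fun_prop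
  exact K.continuousOn_act.comp h (fun x hx => ⟨mem_univ _, hx⟩)

lemma AffineFlow.act_inv_act (K : AffineFlow G E) (g : G) {x : E} (hx : x ∈ K.carrier) :
    K.act g⁻¹ (K.act g x) = x := by
  rw [← K.act_mul _ _ _ hx, inv_mul_cancel, K.act_one _ hx]

lemma AffineFlow.act_act_inv (K : AffineFlow G E) (g : G) {x : E} (hx : x ∈ K.carrier) :
    K.act g (K.act g⁻¹ x) = x := by
  rw [← K.act_mul _ _ _ hx, mul_inv_cancel, K.act_one _ hx]

lemma AffineFlow.act_mem_ext (K : AffineFlow G E) (g : G) {x : E}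
    (hx : x ∈ K.carrier.extremePoints ℝ) : K.act g x ∈ K.carrier.extremePoints ℝ := by
  refine ⟨K.act_mem g x hx.1, ?_⟩
  intro a ha b hb hab
  obtain ⟨s, t, hs, ht, hst, h⟩ := hab
  have h1 : K.act g⁻¹ a = x := by
    apply hx.2 (K.act_mem g⁻¹ a ha) (K.act_mem g⁻¹ b hb)
    refine ⟨s, t, hs, ht, hst, ?_⟩
    rw [← K.act_affine g⁻¹ a ha b hb s t hs.le ht.le hst, h, K.act_inv_act g hx.1]
  rw [← h1, K.act_act_inv g ha]

lemma AffineFlow.act_mem_clExt (K : AffineFlow G E) (g : G) {x : E}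
    (hx : x ∈ K.clExt) : K.act g x ∈ K.clExt := by
  have hc : ContinuousWithinAt (K.act g) (K.carrier.extremePoints ℝ) x :=
    (K.continuousOn_act_right g x (K.clExt_subset hx)).mono extremePoints_subset
  exact hc.mem_closure hx (fun y hy => K.act_mem_ext g hy)

/-- The closed convex hull of an invariant set is a subflow. -/
lemma AffineFlow.isSubflow_closure_convexHull (K : AffineFlow G E) {Z : Set E}
    (hZ : Z ⊆ K.carrier) (hinv : ∀ g : G, ∀ x ∈ Z, K.act g x ∈ Z) :
    K.IsSubflow (closure (convexHull ℝ Z)) := by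
  have hsub : closure (convexHull ℝ Z) ⊆ K.carrier :=
    closure_minimal (convexHull_min hZ K.convex_carrier) K.isCompact_carrier.isClosed
  refine ⟨hsub, K.isCompact_carrier.of_isClosed_subset isClosed_closure hsub,
    (convex_convexHull ℝ Z).closure, ?_⟩
  intro g
  set D := closure (convexHull ℝ Z) with hD
  have hDc : Convex ℝ D := (convex_convexHull ℝ Z).closure
  let S : Set E := K.carrier ∩ K.act g ⁻¹' D
  have hSclosed : IsClosed S :=
    (K.continuousOn_act_right g).preimage_isClosed_of_isClosed K.isCompact_carrier.isClosed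
      isClosed_closure
  have hSconv : Convex ℝ S := by
    intro x hx y hy a b ha hb hab
    refine ⟨K.convex_carrier hx.1 hy.1 ha hb hab, ?_⟩
    show K.act g (a • x + b • y) ∈ D
    rw [K.act_affine g x hx.1 y hy.1 a b ha hb hab]
    exact hDc hx.2 hy.2 ha hb hab
  have hZS : Z ⊆ S := fun x hx =>
    ⟨hZ hx, subset_closure (subset_convexHull ℝ Z (hinv g x hx))⟩
  have hDS : D ⊆ S := closure_minimal (convexHull_min hZS hSconv) hSclosed
  exact fun x hx => (hDS hx).2

end FlowLemmas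

section SumLemmas

variable {E : Type*} [AddCommGroup E] [Module ℝ E]
variable {F : Type*} [AddCommGroup F] [Module ℝ F]

/-- An affine map on a convex set commutes with finite convex combinations. -/
lemma map_sum_of_affineOn {S : Set E} (hS : Convex ℝ S) (f : E → F)
    (hf : ∀ x ∈ S, ∀ y ∈ S, ∀ a b : ℝ, 0 ≤ a → 0 ≤ b → a + b = 1 →
      f (a • x + b • y) = a • f x + b • f y)
    {ι : Type*} [Fintype ι] (w : ι → ℝ) (p : ι → E) (hw : ∀ i, 0 ≤ w i) (hs : ∑ i, w i = 1)
    (hp : ∀ i, p i ∈ S) : f (∑ i, w i • p i) = ∑ i, w i • f (p i) := by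
  let Γ : Set (E × F) := {z | z.1 ∈ S ∧ z.2 = f z.1}
  have hΓ : Convex ℝ Γ := by
    rintro ⟨x, x'⟩ ⟨hx, hx'⟩ ⟨y, y'⟩ ⟨hy, hy'⟩ a b ha hb hab
    simp only at hx hx' hy hy'
    subst hx' hy'
    refine ⟨hS hx hy ha hb hab, ?_⟩
    show a • f x + b • f y = f (a • x + b • y)
    rw [hf x hx y hy a b ha hb hab]
  have h := hΓ.sum_mem (t := Finset.univ) (w := w) (z := fun i => (p i, f (p i)))
    (fun i _ => hw i) hs (fun i _ => ⟨hp i, rfl⟩)
  have h2 := h.2
  simp only [Prod.fst_sum, Prod.snd_sum, Prod.smul_mk] at h2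
  exact h2.symm

end SumLemmas

section Extension

variable {G : Type*} [Group G] [TopologicalSpace G]
variable {E : Type*} [AddCommGroup E] [Module ℝ E] [TopologicalSpace E] [T2Space E]
  [IsTopologicalAddGroup E] [ContinuousSMul ℝ E] [LocallyConvexSpace ℝ E]
variable {F : Type*} [AddCommGroup F] [Module ℝ F] [TopologicalSpace F] [T2Space F]
  [IsTopologicalAddGroup F] [ContinuousSMul ℝ F] [LocallyConvexSpace ℝ F]
variable {L : AffineFlow G F} {K : AffineFlow G E} {φ : F → E}

lemma IsAffineExtension.map_mem (h : IsAffineExtension L K φ) {x : F} (hx : x ∈ L.carrier) :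
    φ x ∈ K.carrier := by
  rw [← h.image_eq]; exact mem_image_of_mem φ hx

/-- Every point of `closure (ext K)` lifts to `closure (ext L)`. -/
lemma IsAffineExtension.exists_lift (h : IsAffineExtension L K φ) {y : E} (hy : y ∈ K.clExt) :
    ∃ x ∈ L.clExt, φ x = y := by
  have hcomp : IsCompact (φ '' L.clExt) :=
    L.isCompact_clExt.image_of_continuousOn (h.continuousOn.mono L.clExt_subset)
  have hsub : K.carrier.extremePoints ℝ ⊆ φ '' L.clExt := by
    intro z hz
    have hfc : IsCompact (L.carrier ∩ φ ⁻¹' {z}) :=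
      L.isCompact_carrier.of_isClosed_subset
        (h.continuousOn.preimage_isClosed_of_isClosed L.isCompact_carrier.isClosed
          isClosed_singleton) inter_subset_left
    have hfn : (L.carrier ∩ φ ⁻¹' {z}).Nonempty := by
      have : z ∈ φ '' L.carrier := by rw [h.image_eq]; exact hz.1
      obtain ⟨x, hx, hxz⟩ := this
      exact ⟨x, hx, hxz⟩
    obtain ⟨x, hx⟩ := hfc.extremePoints_nonempty hfn
    refine ⟨x, subset_closure ?_, hx.1.2⟩
    refine ⟨hx.1.1, ?_⟩
    intro a ha b hb hab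
    have hxz : φ x = z := hx.1.2
    have hab' : z ∈ openSegment ℝ (φ a) (φ b) := by
      obtain ⟨s, t, hs, ht, hst, hx'⟩ := hab
      refine ⟨s, t, hs, ht, hst, ?_⟩
      rw [← h.affine a ha b hb s t hs.le ht.le hst, hx', hxz]
    have h1 := (mem_extremePoints.1 hz).2 (φ a) (h.map_mem ha) (φ b) (h.map_mem hb) hab'
    exact hx.2 ⟨ha, h1.1⟩ ⟨hb, h1.2⟩ hab
  have : K.clExt ⊆ φ '' L.clExt := closure_minimal hsub hcomp.isClosed
  obtain ⟨x, hx, hxy⟩ := this hy
  exact ⟨x, hx, hxy⟩

/-- A proximally irreducible extension maps `closure (ext L)` into `closure (ext K)`. -/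
lemma IsAffineExtension.map_clExt (h : IsAffineExtension L K φ)
    (hp : IsProximallyIrreducible L K φ) {x : F} (hx : x ∈ L.clExt) : φ x ∈ K.clExt := by
  let Z : Set F := L.clExt ∩ φ ⁻¹' K.clExt
  have hZclosed : IsClosed Z :=
    (h.continuousOn.mono L.clExt_subset).preimage_isClosed_of_isClosed L.isClosed_clExt
      K.isClosed_clExt
  have hZL : Z ⊆ L.carrier := inter_subset_left.trans L.clExt_subset
  have hZcomp : IsCompact Z := L.isCompact_carrier.of_isClosed_subset hZclosed hZL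
  have hZinv : ∀ g : G, ∀ x ∈ Z, L.act g x ∈ Z := by
    intro g x hx
    refine ⟨L.act_mem_clExt g hx.1, ?_⟩
    show φ (L.act g x) ∈ K.clExt
    rw [h.equivariant g x (hZL hx)]
    exact K.act_mem_clExt g hx.2
  have hsub := L.isSubflow_closure_convexHull hZL hZinv
  have heq : closure (convexHull ℝ Z) = L.carrier := by
    apply hp _ hsub
    intro y hy
    obtain ⟨x, hx, hxy⟩ := h.exists_lift hy
    refine ⟨x, subset_closure (subset_convexHull ℝ Z ⟨hx, ?_⟩),
      subset_convexHull ℝ _ ⟨hx, hxy⟩⟩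
    show φ x ∈ K.clExt
    rw [hxy]; exact hy
  have hext : L.carrier.extremePoints ℝ ⊆ Z :=
    milman L.isCompact_carrier L.convex_carrier hZcomp heq
  exact (closure_minimal hext hZclosed hx).2

end Extension

section Bary

variable {E : Type*} [TopologicalSpace E] [T2Space E]
variable {H : Type*} [AddCommGroup H] [Module ℝ H] [TopologicalSpace H] [T2Space H]
  [IsTopologicalAddGroup H] [ContinuousSMul ℝ H]

/-- Weights and `N + 1` points of `X` in one fibre of `χ`, with weighted sum in `C`. -/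
def baryConf (X C : Set H) (χ : H → E) (N : ℕ) :
    Set ((Fin (N + 1) → ℝ) × (Fin (N + 1) → H)) :=
  {q | q.1 ∈ stdSimplex ℝ (Fin (N + 1)) ∧ (∀ i, q.2 i ∈ X) ∧ (∀ i, χ (q.2 i) = χ (q.2 0)) ∧
    ∑ i, q.1 i • q.2 i ∈ C}

lemma isCompact_baryConf {X C : Set H} {χ : H → E} (hX : IsCompact X) (hC : IsClosed C)
    (hχ : ContinuousOn χ X) (N : ℕ) : IsCompact (baryConf X C χ N) := by
  let K0 : Set ((Fin (N + 1) → ℝ) × (Fin (N + 1) → H)) :=
    stdSimplex ℝ (Fin (N + 1)) ×ˢ (univ.pi fun _ => X)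
  have hK0 : IsCompact K0 := (isCompact_stdSimplex ℝ _).prod (isCompact_univ_pi fun _ => hX)
  have hK0c : IsClosed K0 := hK0.isClosed
  have hcl : IsClosed (baryConf X C χ N) := by
    have h1 : ∀ i : Fin (N + 1), IsClosed (K0 ∩
        (fun q : (Fin (N + 1) → ℝ) × (Fin (N + 1) → H) => (χ (q.2 i), χ (q.2 0))) ⁻¹'
          (diagonal E)) := by
      intro i
      apply ContinuousOn.preimage_isClosed_of_isClosed _ hK0c isClosed_diagonal
      apply ContinuousOn.prodMk
      · exact hχ.comp (by fun_prop) (fun q hq => hq.2 i (mem_univ i))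
      · exact hχ.comp (by fun_prop) (fun q hq => hq.2 0 (mem_univ 0))
    have h2 : IsClosed {q : (Fin (N + 1) → ℝ) × (Fin (N + 1) → H) |
        ∑ i, q.1 i • q.2 i ∈ C} := by
      apply hC.preimage
      fun_prop
    have h3 : baryConf X C χ N = (⋂ i : Fin (N + 1), (K0 ∩
        (fun q : (Fin (N + 1) → ℝ) × (Fin (N + 1) → H) => (χ (q.2 i), χ (q.2 0))) ⁻¹'
          (diagonal E))) ∩ {q | ∑ i, q.1 i • q.2 i ∈ C} := by
      ext q
      constructor
      · rintro ⟨ha, hb, hc, hd⟩
        refine ⟨mem_iInter.2 fun i => ⟨⟨ha, fun j _ => hb j⟩, hc i⟩, hd⟩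
      · rintro ⟨ha, hd⟩
        have ha' := mem_iInter.1 ha
        exact ⟨(ha' 0).1.1, fun i => (ha' 0).1.2 i (mem_univ i), fun i => (ha' i).2, hd⟩
    rw [h3]
    exact (isClosed_iInter h1).inter h2
  exact hK0.of_isClosed_subset hcl (fun q hq => ⟨hq.1, fun i _ => hq.2.1 i⟩)

/-- The set of fibre values of `baryConf`. -/
def barySet (X C : Set H) (χ : H → E) (N : ℕ) : Set E :=
  (fun q : (Fin (N + 1) → ℝ) × (Fin (N + 1) → H) => χ (q.2 0)) '' baryConf X C χ N

lemma isCompact_barySet {X C : Set H} {χ : H → E} (hX : IsCompact X) (hC : IsClosed C)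
    (hχ : ContinuousOn χ X) (N : ℕ) : IsCompact (barySet X C χ N) := by
  apply (isCompact_baryConf hX hC hχ N).image_of_continuousOn
  exact hχ.comp (by fun_prop) (fun q hq => hq.2.1 0)

lemma nonempty_of_mem_barySet {X C : Set H} {χ : H → E} {N : ℕ} {y : E}
    (hy : y ∈ barySet X C χ N) : (C ∩ convexHull ℝ (X ∩ χ ⁻¹' {y})).Nonempty := by
  obtain ⟨q, ⟨h1, h2, h3, h4⟩, rfl⟩ := hy
  refine ⟨_, h4, ?_⟩
  apply (convex_convexHull ℝ _).sum_mem (fun i _ => h1.1 i) h1.2
  intro i _
  exact subset_convexHull ℝ _ ⟨h2 i, h3 i⟩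

lemma exists_mem_barySet {X C : Set H} {χ : H → E} {y : E}
    (hy : (C ∩ convexHull ℝ (X ∩ χ ⁻¹' {y})).Nonempty) : ∃ N, y ∈ barySet X C χ N := by
  obtain ⟨c, hcC, hc⟩ := hy
  rw [mem_convexHull_iff_exists_fintype] at hc
  obtain ⟨ι, hι, w, z, hw0, hw1, hz, hsum⟩ := hc
  have hne : Nonempty ι := by
    by_contra hemp
    rw [not_nonempty_iff] at hemp
    simp at hw1
  have hcard : Fintype.card ι = (Fintype.card ι - 1) + 1 := by
    have := Fintype.card_pos (α := ι)
    omega
  let e : Fin ((Fintype.card ι - 1) + 1) ≃ ι :=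
    (finCongr hcard.symm).trans (Fintype.equivFin ι).symm
  refine ⟨Fintype.card ι - 1, (fun i => w (e i), fun i => z (e i)), ⟨⟨?_, ?_⟩, ?_, ?_, ?_⟩, ?_⟩
  · intro i; exact hw0 _
  · show ∑ i, w (e i) = 1
    rw [← hw1]
    exact Equiv.sum_comp e w
  · intro i; exact (hz _).1
  · intro i
    show χ (z (e i)) = χ (z (e 0))
    rw [(hz (e i)).2, (hz (e 0)).2]
  · show ∑ i, w (e i) • z (e i) ∈ C
    rw [Equiv.sum_comp e (fun j => w j • z j), hsum]
    exact hcC
  · exact (hz (e 0)).2

end Bary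

end Pool.Agent.Lib.MP_d4114f_an
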